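import Pool.Agent.Helper64.HG.Stmts

/-! MP_866009_co, modules BTW and THREE: betweenness at a vertex of a circle graph. -/

set_option autoImplicit false

namespace Pool.Agent.Helper64.HG

/-- walking along a chain -/
lemma btw_walk {V : Type} {G : SimpleGraph V} {P : List V} (hP : Ch G P) (Q : V → Prop)
    (hQ : ∀ x ∈ P, ∀ y ∈ P, G.Adj x y → Q x → Q y) :
    ∀ x ∈ P, ∀ y ∈ P, Q x → Q y := by
  have h0 : ∀ (i : ℕ) (hi : i < P.length),
      (Q (P[i]) ↔ Q (P[0]'(by omega))) := by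
    intro i
    induction i with
    | zero => intro hi; exact Iff.rfl
    | succ i ih =>
      intro hi
      have hadj := hP i hi
      have h1 : Q (P[i + 1]) ↔ Q (P[i]'(by omega)) :=
        ⟨fun h => hQ _ (List.getElem_mem _) _ (List.getElem_mem _) hadj.symm h,
          fun h => hQ _ (List.getElem_mem _) _ (List.getElem_mem _) hadj h⟩
      exact h1.trans (ih (by omega))
  intro x hx y hy hqx
  obtain ⟨i, hi, rfl⟩ := List.getElem_of_mem hx
  obtain ⟨j, hj, rfl⟩ := List.getElem_of_mem hy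
  exact (h0 j hj).2 ((h0 i hi).1 hqx)

/-- neighbours of `v` when `l v` is the smallest endpoint -/
lemma btw_nbr {V : Type} {G : SimpleGraph V} {l r : V → ℝ} (M : Model G l r) {v : V}
    (hv : ∀ u, u ≠ v → l v < l u) {a : V} (ha : G.Adj v a) : l a < r v ∧ r v < r a := by
  have h1 := hv a (fun h => G.loopless.irrefl v (h ▸ ha))
  rcases (M.adj v a).1 ha with h | h
  · exact ⟨h.2.1, h.2.2⟩
  · exact absurd h.1 (not_lt.2 h1.le)

lemma btw_far {V : Type} {G : SimpleGraph V} {l r : V → ℝ} (M : Model G l r) {v : V}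
    (hv : ∀ u, u ≠ v → l v < l u) {k : V} (hk : k ∈ Far G v) : r k < r v ∨ r v < l k := by
  obtain ⟨h1, h2⟩ := hk
  have h3 := hv k h1
  by_contra hcon
  push Not at hcon
  apply h2
  rw [M.adj]
  left
  refine ⟨h3, lt_of_le_of_ne hcon.2 (M.ne k v), lt_of_le_of_ne hcon.1 ?_⟩
  intro h
  exact h1 (M.injr h).symm

/-- chains of far vertices stay on one side -/
lemma btw_side {V : Type} {G : SimpleGraph V} {l r : V → ℝ} (M : Model G l r) {v : V}
    (hv : ∀ u, u ≠ v → l v < l u) {P : List V} (hP : Ch G P) (hF : ∀ x ∈ P, x ∈ Far G v) :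
    (∀ x ∈ P, r x < r v) ∨ (∀ x ∈ P, r v < l x) := by
  by_cases hne : ∃ x ∈ P, r x < r v
  · left
    obtain ⟨x, hx, hxr⟩ := hne
    intro y hy
    refine btw_walk hP (fun z => r z < r v) ?_ x hx y hy hxr
    intro z hz w hw hadj hzr
    rcases btw_far M hv (hF w hw) with h | h
    · exact h
    · exfalso
      have hz' := M.lt z
      have hw' := M.lt w
      rcases (M.adj z w).1 hadj with h' | h'
      · linarith [h'.2.1]
      · linarith [h'.1]
  · right
    push Not at hne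
    intro x hx
    rcases btw_far M hv (hF x hx) with h | h
    · exact absurd h (not_lt.2 (hne x hx))
    · exact h

/-- adjacency of a neighbour of `v` and an inner vertex -/
lemma btw_in {V : Type} {G : SimpleGraph V} {l r : V → ℝ} (M : Model G l r) {v : V}
    (hv : ∀ u, u ≠ v → l v < l u) {a z : V} (ha : G.Adj v a) (hz : r z < r v) :
    (G.Adj a z ↔ l z < l a ∧ l a < r z) := by
  have h1 := btw_nbr M hv ha
  rw [M.adj]
  constructor
  · rintro (h | h)
    · exfalso; linarith [h.2.2]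
    · exact ⟨h.1, h.2.1⟩
  · rintro ⟨h2, h3⟩
    right
    exact ⟨h2, h3, by linarith⟩

lemma btw_out {V : Type} {G : SimpleGraph V} {l r : V → ℝ} (M : Model G l r) {v : V}
    (hv : ∀ u, u ≠ v → l v < l u) {a z : V} (ha : G.Adj v a) (hz : r v < l z) :
    (G.Adj a z ↔ l z < r a ∧ r a < r z) := by
  have h1 := btw_nbr M hv ha
  rw [M.adj]
  constructor
  · rintro (h | h)
    · exact ⟨h.2.1, h.2.2⟩
    · exfalso; linarith [h.1]
  · rintro ⟨h2, h3⟩
    left
    exact ⟨by linarith, h2, h3⟩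

/-- nesting of the neighbours of `v` -/
lemma btw_nest {V : Type} {G : SimpleGraph V} {l r : V → ℝ} (M : Model G l r) {v : V}
    (hv : ∀ u, u ≠ v → l v < l u) {a b : V} (ha : G.Adj v a) (hb : G.Adj v b)
    (hab : ¬ G.Adj a b) (h : l a < l b) : r b < r a := by
  have h1 := btw_nbr M hv ha
  have h2 := btw_nbr M hv hb
  by_contra hcon
  push Not at hcon
  apply hab
  rw [M.adj]
  left
  refine ⟨h, by linarith, lt_of_le_of_ne hcon ?_⟩
  intro h3
  have := M.injr h3
  subst this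
  exact lt_irrefl _ h

/-- a chain whose intervals cover points on both sides of `tc` has an interval containing `tc` -/
lemma btw_core {V : Type} {G : SimpleGraph V} {l r : V → ℝ} (M : Model G l r) {P : List V}
    (hP : Ch G P) (ta tc tb : ℝ) (h1 : ta < tc) (h2 : tc < tb)
    (hl : ∀ x ∈ P, l x ≠ tc) (hr : ∀ x ∈ P, r x ≠ tc)
    (hxa : ∃ x ∈ P, l x < ta ∧ ta < r x) (hxb : ∃ x ∈ P, l x < tb ∧ tb < r x)
    (hno : ∀ x ∈ P, ¬ (l x < tc ∧ tc < r x)) : False := by
  obtain ⟨x, hx, hx1, hx2⟩ := hxa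
  obtain ⟨y, hy, hy1, hy2⟩ := hxb
  have hcase : ∀ z ∈ P, r z < tc ∨ tc < l z := by
    intro z hz
    by_contra hcon
    push Not at hcon
    exact hno z hz ⟨lt_of_le_of_ne hcon.2 (hl z hz), lt_of_le_of_ne hcon.1 (hr z hz).symm⟩
  have hxq : r x < tc := by
    rcases hcase x hx with h | h
    · exact h
    · linarith
  have := btw_walk hP (fun z => r z < tc) (by
    intro z hz w hw hadj hzr
    rcases hcase w hw with h | h
    · exact h
    · exfalso
      have hz' := M.lt z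
      have hw' := M.lt w
      rcases (M.adj z w).1 hadj with h' | h'
      · linarith [h'.2.1]
      · linarith [h'.1]) x hx y hy hxq
  linarith

theorem st_BTW (hROT : ST_ROT) : ST_BTW := by
  intro V _ G v hG hC
  obtain ⟨l, r, M, hv⟩ := hROT V G v hC
  refine ⟨l, fun a b _ _ h => M.injl h, ?_⟩
  intro a b c P ha hb hc hca hcb hP hF hxa hxb hxc
  have hnadj : ∀ x y, G.Adj v x → G.Adj v y → ¬ G.Adj x y := by
    intro x y hx hy hxy
    exact hG.1 x v y hx.symm hy hxy
  have hcP : ∀ x ∈ P, x ≠ c := by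
    intro x hx h
    subst h
    exact (hF x hx).2 hc
  rcases btw_side M hv hP hF with hin | hout
  · have h1 : ∃ x ∈ P, l x < l a ∧ l a < r x := by
      obtain ⟨x, hx, hax⟩ := hxa
      exact ⟨x, hx, (btw_in M hv ha (hin x hx)).1 hax⟩
    have h2 : ∃ x ∈ P, l x < l b ∧ l b < r x := by
      obtain ⟨x, hx, hax⟩ := hxb
      exact ⟨x, hx, (btw_in M hv hb (hin x hx)).1 hax⟩
    have h3 : ∀ x ∈ P, ¬ (l x < l c ∧ l c < r x) := by
      intro x hx h
      exact hxc x hx ((btw_in M hv hc (hin x hx)).2 h)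
    have hl : ∀ x ∈ P, l x ≠ l c := fun x hx h => hcP x hx (M.injl h)
    have hr : ∀ x ∈ P, r x ≠ l c := fun x hx h => M.ne c x h.symm
    rintro (⟨h4, h5⟩ | ⟨h4, h5⟩)
    · exact btw_core M hP (l a) (l c) (l b) h4 h5 hl hr h1 h2 h3
    · exact btw_core M hP (l b) (l c) (l a) h4 h5 hl hr h2 h1 h3
  · have h1 : ∃ x ∈ P, l x < r a ∧ r a < r x := by
      obtain ⟨x, hx, hax⟩ := hxa
      exact ⟨x, hx, (btw_out M hv ha (hout x hx)).1 hax⟩
    have h2 : ∃ x ∈ P, l x < r b ∧ r b < r x := by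
      obtain ⟨x, hx, hax⟩ := hxb
      exact ⟨x, hx, (btw_out M hv hb (hout x hx)).1 hax⟩
    have h3 : ∀ x ∈ P, ¬ (l x < r c ∧ r c < r x) := by
      intro x hx h
      exact hxc x hx ((btw_out M hv hc (hout x hx)).2 h)
    have hl : ∀ x ∈ P, l x ≠ r c := fun x hx h => M.ne x c h
    have hr : ∀ x ∈ P, r x ≠ r c := fun x hx h => hcP x hx (M.injr h)
    rintro (⟨h4, h5⟩ | ⟨h4, h5⟩)
    · exact btw_core M hP (r b) (r c) (r a) (btw_nest M hv hc hb (hnadj c b hc hb) h5)
        (btw_nest M hv ha hc (hnadj a c ha hc) h4) hl hr h2 h1 h3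
    · exact btw_core M hP (r a) (r c) (r b) (btw_nest M hv hc ha (hnadj c a hc ha) h5)
        (btw_nest M hv hb hc (hnadj b c hb hc) h4) hl hr h1 h2 h3

/-- one chain inside an interval of the other -/
lemma three_core1 {V : Type} {G : SimpleGraph V} {l r : V → ℝ} (M : Model G l r) {A B : List V}
    (hB : Ch G B) (hAB : Anti G A B) (tb : ℝ) {x y : V} (hx : x ∈ A) (hy : y ∈ B)
    (h1 : l x < l y) (h2 : r y < r x) (hxb : ∃ z ∈ B, l z < tb ∧ tb < r z)
    (hno : ∀ z ∈ A, ¬ (l z < tb ∧ tb < r z)) : False := by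
  obtain ⟨z, hz, hz1, hz2⟩ := hxb
  have key := btw_walk hB (fun w => l x < l w ∧ r w < r x) (by
    intro w hw w' hw' hadj hq
    have hn := hAB x hx w' hw'
    have hlt := M.lt x
    have hlt' := M.lt w'
    have hltw := M.lt w
    have hnovl : ¬ Ovl l r x w' := fun h => hn.2 ((M.adj x w').2 h)
    have hl' : l x ≠ l w' := fun h => hn.1 (M.injl h)
    have hr' : r x ≠ r w' := fun h => hn.1 (M.injr h)
    have e1 := M.ne x w'
    have e2 := M.ne w' x
    unfold Ovl at hnovl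
    push Not at hnovl
    obtain ⟨q1, q2⟩ := hq
    rcases (M.adj w w').1 hadj with h | h
    · -- l w < l w' < r w < r w'
      obtain ⟨p1, p2, p3⟩ := h
      have hA1 : l x < l w' := by linarith
      have hA2 : l w' < r x := by linarith
      have := hnovl.1 hA1 hA2
      exact ⟨hA1, lt_of_le_of_ne this (Ne.symm hr')⟩
    · obtain ⟨p1, p2, p3⟩ := h
      -- l w' < l w < r w' < r w
      have hA1 : r w' < r x := by linarith
      have hA2 : l x < r w' := by linarith
      refine ⟨?_, hA1⟩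
      by_contra hcon
      push Not at hcon
      have := hnovl.2 (lt_of_le_of_ne hcon (Ne.symm hl')) hA2
      linarith) y hy z hz ⟨h1, h2⟩
  exact hno x hx ⟨by linarith [key.1], by linarith [key.2]⟩

/-- two chains on the same side -/
lemma three_core {V : Type} {G : SimpleGraph V} {l r : V → ℝ} (M : Model G l r) {A B : List V}
    (hA : Ch G A) (hB : Ch G B) (hAB : Anti G A B) (tn ta tb : ℝ)
    (hna : ∃ z ∈ A, l z < tn ∧ tn < r z) (hnb : ∃ z ∈ B, l z < tn ∧ tn < r z)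
    (hxa : ∃ z ∈ A, l z < ta ∧ ta < r z) (hxb : ∃ z ∈ B, l z < tb ∧ tb < r z)
    (hno1 : ∀ z ∈ B, ¬ (l z < ta ∧ ta < r z))
    (hno2 : ∀ z ∈ A, ¬ (l z < tb ∧ tb < r z)) : False := by
  obtain ⟨x, hx, hx1, hx2⟩ := hna
  obtain ⟨y, hy, hy1, hy2⟩ := hnb
  have hn := hAB x hx y hy
  have hnovl : ¬ Ovl l r x y := fun h => hn.2 ((M.adj x y).2 h)
  have hl' : l x ≠ l y := fun h => hn.1 (M.injl h)
  have hr' : r x ≠ r y := fun h => hn.1 (M.injr h)
  unfold Ovl at hnovl
  push Not at hnovl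
  rcases lt_or_gt_of_ne hl' with h | h
  · have h3 := hnovl.1 h (by linarith)
    exact three_core1 M hB hAB tb hx hy h (lt_of_le_of_ne h3 (Ne.symm hr')) hxb hno2
  · have h3 := hnovl.2 h (by linarith)
    refine three_core1 M hA ?_ ta hy hx h (lt_of_le_of_ne h3 hr') hxa hno1
    intro b hb a ha
    have := hAB a ha b hb
    exact ⟨this.1.symm, fun h => this.2 h.symm⟩

theorem st_THREE (hROT : ST_ROT) : ST_THREE := by
  intro V _ G v n a b c A B C hG hC hn ha hb hc hA hB hCc fA fB fC nA nB nC aA bB cC hAB hAC hBC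
    aB aC bA bC cA cB
  obtain ⟨l, r, M, hv⟩ := hROT V G v hC
  have fin_in : ∀ (a' b' : V) (A' B' : List V), G.Adj v a' → G.Adj v b' → Ch G A' → Ch G B' →
      (∀ x ∈ A', r x < r v) → (∀ x ∈ B', r x < r v) → (∃ x ∈ A', G.Adj n x) →
      (∃ x ∈ B', G.Adj n x) → (∃ x ∈ A', G.Adj a' x) → (∃ x ∈ B', G.Adj b' x) →
      Anti G A' B' → Anti G [a'] B' → Anti G [b'] A' → False := by
    intro a' b' A' B' ha' hb' hA' hB' iA iB nA' nB' aA' bB' hAB' aB' bA'
    refine three_core M hA' hB' hAB' (l n) (l a') (l b') ?_ ?_ ?_ ?_ ?_ ?_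
    · obtain ⟨x, hx, h⟩ := nA'
      exact ⟨x, hx, (btw_in M hv hn (iA x hx)).1 h⟩
    · obtain ⟨x, hx, h⟩ := nB'
      exact ⟨x, hx, (btw_in M hv hn (iB x hx)).1 h⟩
    · obtain ⟨x, hx, h⟩ := aA'
      exact ⟨x, hx, (btw_in M hv ha' (iA x hx)).1 h⟩
    · obtain ⟨x, hx, h⟩ := bB'
      exact ⟨x, hx, (btw_in M hv hb' (iB x hx)).1 h⟩
    · intro z hz h
      exact (aB' a' (by simp) z hz).2 ((btw_in M hv ha' (iB z hz)).2 h)
    · intro z hz h
      exact (bA' b' (by simp) z hz).2 ((btw_in M hv hb' (iA z hz)).2 h)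
  have fin_out : ∀ (a' b' : V) (A' B' : List V), G.Adj v a' → G.Adj v b' → Ch G A' → Ch G B' →
      (∀ x ∈ A', r v < l x) → (∀ x ∈ B', r v < l x) → (∃ x ∈ A', G.Adj n x) →
      (∃ x ∈ B', G.Adj n x) → (∃ x ∈ A', G.Adj a' x) → (∃ x ∈ B', G.Adj b' x) →
      Anti G A' B' → Anti G [a'] B' → Anti G [b'] A' → False := by
    intro a' b' A' B' ha' hb' hA' hB' iA iB nA' nB' aA' bB' hAB' aB' bA'
    refine three_core M hA' hB' hAB' (r n) (r a') (r b') ?_ ?_ ?_ ?_ ?_ ?_
    · obtain ⟨x, hx, h⟩ := nA'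
      exact ⟨x, hx, (btw_out M hv hn (iA x hx)).1 h⟩
    · obtain ⟨x, hx, h⟩ := nB'
      exact ⟨x, hx, (btw_out M hv hn (iB x hx)).1 h⟩
    · obtain ⟨x, hx, h⟩ := aA'
      exact ⟨x, hx, (btw_out M hv ha' (iA x hx)).1 h⟩
    · obtain ⟨x, hx, h⟩ := bB'
      exact ⟨x, hx, (btw_out M hv hb' (iB x hx)).1 h⟩
    · intro z hz h
      exact (aB' a' (by simp) z hz).2 ((btw_out M hv ha' (iB z hz)).2 h)
    · intro z hz h
      exact (bA' b' (by simp) z hz).2 ((btw_out M hv hb' (iA z hz)).2 h)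
  rcases btw_side M hv hA fA with iA | iA <;> rcases btw_side M hv hB fB with iB | iB <;>
    rcases btw_side M hv hCc fC with iC | iC
  · exact fin_in a b A B ha hb hA hB iA iB nA nB aA bB hAB aB bA
  · exact fin_in a b A B ha hb hA hB iA iB nA nB aA bB hAB aB bA
  · exact fin_in a c A C ha hc hA hCc iA iC nA nC aA cC hAC aC cA
  · exact fin_out b c B C hb hc hB hCc iB iC nB nC bB cC hBC bC cB
  · exact fin_in b c B C hb hc hB hCc iB iC nB nC bB cC hBC bC cB
  · exact fin_out a c A C ha hc hA hCc iA iC nA nC aA cC hAC aC cA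
  · exact fin_out a b A B ha hb hA hB iA iB nA nB aA bB hAB aB bA
  · exact fin_out a b A B ha hb hA hB iA iB nA nB aA bB hAB aB bA

end Pool.Agent.Helper64.HG
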