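import Pool.Agent.Helper64.HG.Stmts

/-! MP_866009_co, module NCB: an edge and three long paths are not a circle graph. -/

set_option autoImplicit false

namespace Pool.Agent.Helper64.HG

lemma ncb_anti {V : Type} {G : SimpleGraph V} {A B : List V} (h : Anti G A B) : Anti G B A :=
  fun b hb a ha => ⟨(h a ha b hb).1.symm, fun e => (h a ha b hb).2 e.symm⟩

lemma ncb_sub {V : Type} {G : SimpleGraph V} {A B A' B' : List V} (h : Anti G A B)
    (hA : ∀ x ∈ A', x ∈ A) (hB : ∀ x ∈ B', x ∈ B) : Anti G A' B' :=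
  fun a ha b hb => h a (hA a ha) b (hB b hb)

/-- the tail of a link of length at least two -/
lemma ncb_tail {V : Type} {G : SimpleGraph V} {u w : V} {A : List V} (hA : Link G u A w)
    (hl : 2 ≤ A.length) : ∃ (a : V) (A' : List V), A = a :: A' ∧ A' ≠ [] ∧ G.Adj u a ∧
      Ch G A' ∧ (∀ x ∈ A', x ∈ Far G u) ∧ (∃ x ∈ A', G.Adj w x) ∧ (∃ x ∈ A', G.Adj a x) := by
  obtain ⟨h1, ⟨hnd, h2⟩, h3, h4, h5, h6⟩ := hA
  cases A with
  | nil => exact absurd rfl h1
  | cons a A' =>
    simp only [List.length_cons] at hl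
    have hne : A' ≠ [] := by
      intro h
      subst h
      simp at hl
    refine ⟨a, A', rfl, hne, ?_, ?_, ?_, ?_, ?_⟩
    · exact (h5 a (by simp)).2 (by simp)
    · intro i hi
      have := h2 (i + 1) (i + 2) (by simp; omega) (by simp; omega) (by omega)
      simp only [List.getElem_cons_succ] at this
      exact this.2 (by trivial)
    · intro x hx
      refine ⟨fun e => h3 (e ▸ List.mem_cons_of_mem _ hx), ?_⟩
      intro hadj
      have := (h5 x (List.mem_cons_of_mem _ hx)).1 hadj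
      simp only [List.head?_cons, Option.some.injEq] at this
      subst this
      exact (List.nodup_cons.1 hnd).1 hx
    · refine ⟨A'.getLast hne, List.getLast_mem hne, ?_⟩
      refine (h6 _ (List.mem_cons_of_mem _ (List.getLast_mem hne))).2 ?_
      rw [List.getLast?_cons, List.getLast?_eq_some_getLast hne]
      rfl
    · refine ⟨A'[0]'(by omega), List.getElem_mem _, ?_⟩
      have := h2 0 1 (by simp) (by simp; omega) (by omega)
      simp only [List.getElem_cons_zero, List.getElem_cons_succ] at this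
      exact this.2 (by trivial)

theorem st_NCB (hTHREE : ST_THREE) : ST_NCB := by
  intro V _ G hG hB hC
  obtain ⟨u, w, A, B, C, h⟩ := hB
  obtain ⟨a, A', rfl, hA1, hA2, hA3, hA4, hA5, hA6⟩ := ncb_tail h.linkA (by have := h.lA; omega)
  obtain ⟨b, B', rfl, hB1, hB2, hB3, hB4, hB5, hB6⟩ := ncb_tail h.linkB (by have := h.lB; omega)
  obtain ⟨c, C', rfl, hC1, hC2, hC3, hC4, hC5, hC6⟩ := ncb_tail h.linkC (by have := h.lC; omega)
  have t : ∀ (x : V) (X : List V), ∀ y ∈ X, y ∈ x :: X := fun x X y hy => List.mem_cons_of_mem _ hy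
  have s : ∀ (x : V) (X : List V), ∀ y ∈ [x], y ∈ x :: X := by
    intro x X y hy
    simp only [List.mem_singleton] at hy
    subst hy
    exact List.mem_cons_self
  refine hTHREE V G u w a b c A' B' C' hG hC h.adj hA2 hB2 hC2 hA3 hB3 hC3 hA4 hB4 hC4 hA5 hB5 hC5
    hA6 hB6 hC6 ?_ ?_ ?_ ?_ ?_ ?_ ?_ ?_ ?_
  · exact ncb_sub h.AB (t a A') (t b B')
  · exact ncb_sub h.AC (t a A') (t c C')
  · exact ncb_sub h.BC (t b B') (t c C')
  · exact ncb_sub h.AB (s a A') (t b B')
  · exact ncb_sub h.AC (s a A') (t c C')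
  · exact ncb_sub (ncb_anti h.AB) (s b B') (t a A')
  · exact ncb_sub h.BC (s b B') (t c C')
  · exact ncb_sub (ncb_anti h.AC) (s c C') (t a A')
  · exact ncb_sub (ncb_anti h.BC) (s c C') (t b B')

end Pool.Agent.Helper64.HG
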