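import Pool.Agent.Helper64.HG.Stmts

/-! MP_866009_co, module NCW: a wheel of girth at least five is not a circle graph. -/

set_option autoImplicit false

namespace Pool.Agent.Helper64.HG

lemma ncw_rot1 {V : Type} {G : SimpleGraph V} (x : V) (M : List V) (h : IC G (x :: M)) :
    IC G (M ++ [x]) := by
  obtain ⟨h1, h2, h3⟩ := h
  simp only [List.length_cons] at h1
  refine ⟨by simp; omega, ?_, ?_⟩
  · rw [List.nodup_cons] at h2
    rw [List.nodup_append]
    refine ⟨h2.2, by simp, ?_⟩
    intro a ha b hb hab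
    simp only [List.mem_singleton] at hb
    subst hb
    subst hab
    exact h2.1 ha
  · intro i j hi hj hij
    have hlen : (M ++ [x]).length = M.length + 1 := by simp
    rw [hlen] at hi hj
    rw [hlen]
    have hi' : i < M.length := by omega
    rw [List.getElem_append_left hi']
    by_cases hjM : j < M.length
    · rw [List.getElem_append_left hjM]
      have := h3 (i + 1) (j + 1) (by simp; omega) (by simp; omega) (by omega)
      simp only [List.getElem_cons_succ, List.length_cons] at this
      rw [this]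
      omega
    · have hj2 : j = M.length := by omega
      subst hj2
      rw [List.getElem_append_right (le_refl _)]
      simp only [Nat.sub_self, List.getElem_cons_zero]
      have := h3 0 (i + 1) (by simp) (by simp; omega) (by omega)
      simp only [List.getElem_cons_succ, List.length_cons, List.getElem_cons_zero] at this
      rw [G.adj_comm, this]
      simp only [true_and, and_true]
      omega

lemma ncw_rot {V : Type} {G : SimpleGraph V} : ∀ (A B : List V), IC G (A ++ B) → IC G (B ++ A) := by
  intro A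
  induction A with
  | nil => intro B h; simpa using h
  | cons x A ih =>
    intro B h
    have h1 := ncw_rot1 x (A ++ B) (by simpa using h)
    have h2 := ih (B ++ [x]) (by simpa using h1)
    simpa using h2

theorem st_NCW (hBTW : ST_BTW) : ST_NCW := by
  classical
  intro V _ G hG hW hC
  obtain ⟨h, L, a, b, c, hw⟩ := hW
  obtain ⟨p, hpinj, hp⟩ := hBTW V G h hG hC
  obtain ⟨x, hx, hxmin⟩ := (L.toFinset.filter (fun y => G.Adj h y)).exists_min_image p
    ⟨a, by simp [hw.aL, hw.ha]⟩
  simp only [Finset.mem_filter, List.mem_toFinset] at hx hxmin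
  obtain ⟨hxL, hhx⟩ := hx
  obtain ⟨A, B, hL⟩ := List.append_of_mem hxL
  have hic0 : IC G (x :: (B ++ A)) := by
    have := ncw_rot A (x :: B) (hL ▸ hw.ic)
    simpa using this
  obtain ⟨M, hM⟩ : ∃ M, M = B ++ A := ⟨_, rfl⟩
  have hic : IC G (x :: M) := by rw [hM]; exact hic0
  have hmem : ∀ y, y ∈ L ↔ (y = x ∨ y ∈ M) := by
    intro y
    rw [hL, hM]
    simp only [List.mem_append, List.mem_cons]
    tauto
  obtain ⟨h1, h2, h3⟩ := hic
  simp only [List.length_cons] at h1
  have hxM : x ∉ M := (List.nodup_cons.1 h2).1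
  have hnd : M.Nodup := (List.nodup_cons.1 h2).2
  have adjM : ∀ (i j : ℕ) (hi : i < M.length) (hj : j < M.length), i < j →
      (G.Adj M[i] M[j] ↔ j = i + 1) := by
    intro i j hi hj hij
    have := h3 (i + 1) (j + 1) (by simp; omega) (by simp; omega) (by omega)
    simp only [List.getElem_cons_succ, List.length_cons] at this
    rw [this]
    omega
  have adjx : ∀ (i : ℕ) (hi : i < M.length), (G.Adj x M[i] ↔ (i = 0 ∨ i + 1 = M.length)) := by
    intro i hi
    have := h3 0 (i + 1) (by simp) (by simp; omega) (by omega)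
    simp only [List.getElem_cons_succ, List.length_cons, List.getElem_cons_zero, true_and] at this
    rw [this]
    omega
  -- two different neighbours of h in M
  have h2S : ∃ y ∈ M, ∃ z ∈ M, y ≠ z ∧ G.Adj h y ∧ G.Adj h z := by
    have ha' := (hmem a).1 hw.aL
    have hb' := (hmem b).1 hw.bL
    have hc' := (hmem c).1 hw.cL
    have hab := hw.ab
    have hac := hw.ac
    have hbc := hw.bc
    rcases ha' with ha' | ha'
    · rcases hb' with hb' | hb'
      · exact absurd (ha'.trans hb'.symm) hab
      · rcases hc' with hc' | hc'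
        · exact absurd (ha'.trans hc'.symm) hac
        · exact ⟨b, hb', c, hc', hbc, hw.hb, hw.hc⟩
    · rcases hb' with hb' | hb'
      · rcases hc' with hc' | hc'
        · exact absurd (hb'.trans hc'.symm) hbc
        · exact ⟨a, ha', c, hc', hac, hw.ha, hw.hc⟩
      · exact ⟨a, ha', b, hb', hab, hw.ha, hw.hb⟩
  have hex2 : ∃ i j, ∃ (hi : i < M.length) (hj : j < M.length), i < j ∧ G.Adj h M[i] ∧
      G.Adj h M[j] := by
    obtain ⟨y, hy, z, hz, hyz, hhy, hhz⟩ := h2S
    obtain ⟨i, hi, rfl⟩ := List.getElem_of_mem hy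
    obtain ⟨j, hj, rfl⟩ := List.getElem_of_mem hz
    rcases lt_trichotomy i j with h | h | h
    · exact ⟨i, j, hi, hj, h, hhy, hhz⟩
    · subst h; exact absurd rfl hyz
    · exact ⟨j, i, hj, hi, h, hhz, hhy⟩
  obtain ⟨i0, j0, hi0, hj0, hij0, hhi0, hhj0⟩ := hex2
  -- first and last
  have hP : ∃ i, ∃ hi : i < M.length, G.Adj h M[i] := ⟨i0, hi0, hhi0⟩
  have hQ : ∃ i, ∃ hi : M.length - 1 - i < M.length, G.Adj h M[M.length - 1 - i] := by
    refine ⟨M.length - 1 - j0, by omega, ?_⟩
    have e : M.length - 1 - (M.length - 1 - j0) = j0 := by omega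
    simp only [e]
    exact hhj0
  set k1 := Nat.find hP with hk1
  obtain ⟨hk1l, hk1a⟩ := Nat.find_spec hP
  have hk1m : ∀ i, (hi : i < M.length) → i < k1 → ¬ G.Adj h M[i] := by
    intro i hi hlt hadj
    exact Nat.find_min hP hlt ⟨hi, hadj⟩
  set t2 := Nat.find hQ with ht2
  obtain ⟨hk2l, hk2a⟩ := Nat.find_spec hQ
  rw [← hk1] at hk1l
  simp only [← hk1] at hk1a
  rw [← ht2] at hk2l
  simp only [← ht2] at hk2a
  have ht2m : ∀ i, (hi : i < M.length) → M.length - 1 - t2 < i → ¬ G.Adj h M[i] := by
    intro i hi hlt hadj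
    refine Nat.find_min hQ (m := M.length - 1 - i) (by omega) ⟨by omega, ?_⟩
    have e : M.length - 1 - (M.length - 1 - i) = i := by omega
    simp only [e]
    exact hadj
  set k2 := M.length - 1 - t2 with hk2
  have hle1 : k1 ≤ i0 := by
    by_contra hcon
    exact hk1m i0 hi0 (by omega) hhi0
  have hle2 : j0 ≤ k2 := by
    by_contra hcon
    exact ht2m j0 hj0 (by omega) hhj0
  have hk12 : k1 < k2 := by omega
  have tri : ∀ y, G.Adj h y → ¬ G.Adj x y := by
    intro y hy hxy
    exact hG.1 x h y hhx.symm hy hxy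
  have hk1pos : 0 < k1 := by
    by_contra hcon
    have : k1 = 0 := by omega
    exact tri _ hk1a ((adjx k1 hk1l).2 (Or.inl this))
  have hk2lt : k2 + 1 < M.length := by
    by_contra hcon
    exact tri _ hk2a ((adjx k2 hk2l).2 (Or.inr (by omega)))
  have hfar : ∀ i, (hi : i < M.length) → ¬ G.Adj h M[i] → M[i] ∈ Far G h := by
    intro i hi hn
    refine ⟨?_, hn⟩
    intro he
    exact hw.hL ((hmem h).2 (Or.inr (he ▸ List.getElem_mem _)))
  have hyL : M[k1] ∈ L := (hmem _).2 (Or.inr (List.getElem_mem _))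
  have hzL : M[k2] ∈ L := (hmem _).2 (Or.inr (List.getElem_mem _))
  have hyx : M[k1] ≠ x := fun e => hxM (e ▸ List.getElem_mem _)
  have hzx : M[k2] ≠ x := fun e => hxM (e ▸ List.getElem_mem _)
  have hyz : M[k1] ≠ M[k2] := by
    intro e
    have := (List.Nodup.getElem_inj_iff hnd).1 e
    omega
  have hpy : p x < p M[k1] :=
    lt_of_le_of_ne (hxmin _ ⟨hyL, hk1a⟩) (fun e => hyx (hpinj _ _ hk1a hhx e.symm))
  have hpz : p x < p M[k2] :=
    lt_of_le_of_ne (hxmin _ ⟨hzL, hk2a⟩) (fun e => hzx (hpinj _ _ hk2a hhx e.symm))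
  have hpyz : p M[k1] ≠ p M[k2] := fun e => hyz (hpinj _ _ hk1a hk2a e)
  have c1 : ¬ Btw p x M[k2] M[k1] := by
    refine hp x M[k1] M[k2] (M.take k1) hhx hk1a hk2a hzx (Ne.symm hyz) ?_ ?_ ?_ ?_ ?_
    · intro i hi
      simp only [List.length_take] at hi
      simp only [List.getElem_take]
      exact (adjM i (i + 1) (by omega) (by omega) (by omega)).2 rfl
    · intro y hy
      obtain ⟨i, hi, rfl⟩ := List.getElem_of_mem hy
      simp only [List.length_take] at hi
      simp only [List.getElem_take]
      exact hfar i (by omega) (hk1m i (by omega) (by omega))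
    · refine ⟨M[0], ?_, (adjx 0 (by omega)).2 (Or.inl rfl)⟩
      rw [List.mem_take_iff_getElem]
      exact ⟨0, by omega, rfl⟩
    · refine ⟨M[k1 - 1], ?_, ?_⟩
      · rw [List.mem_take_iff_getElem]
        exact ⟨k1 - 1, by omega, rfl⟩
      · exact ((adjM (k1 - 1) k1 (by omega) hk1l (by omega)).2 (by omega)).symm
    · intro y hy hadj
      obtain ⟨i, hi, rfl⟩ := List.getElem_of_mem hy
      simp only [List.length_take] at hi
      simp only [List.getElem_take] at hadj
      have := (adjM i k2 (by omega) hk2l (by omega)).1 hadj.symm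
      omega
  have c2 : ¬ Btw p M[k2] M[k1] x := by
    refine hp M[k2] x M[k1] (M.drop (k2 + 1)) hk2a hhx hk1a hyz hyx ?_ ?_ ?_ ?_ ?_
    · intro i hi
      simp only [List.length_drop] at hi
      simp only [List.getElem_drop]
      exact (adjM (k2 + 1 + i) (k2 + 1 + (i + 1)) (by omega) (by omega) (by omega)).2 (by omega)
    · intro y hy
      obtain ⟨i, hi, rfl⟩ := List.getElem_of_mem hy
      simp only [List.length_drop] at hi
      simp only [List.getElem_drop]
      exact hfar _ (by omega) (ht2m _ (by omega) (by omega))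
    · refine ⟨M[k2 + 1], ?_, ?_⟩
      · rw [List.mem_drop_iff_getElem]
        exact ⟨0, by omega, by simp⟩
      · exact (adjM k2 (k2 + 1) hk2l hk2lt (by omega)).2 rfl
    · refine ⟨M[M.length - 1], ?_, (adjx _ (by omega)).2 (Or.inr (by omega))⟩
      rw [List.mem_drop_iff_getElem]
      refine ⟨M.length - 1 - (k2 + 1), by omega, ?_⟩
      congr 1
      omega
    · intro y hy hadj
      obtain ⟨i, hi, rfl⟩ := List.getElem_of_mem hy
      simp only [List.length_drop] at hi
      simp only [List.getElem_drop] at hadj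
      have := (adjM k1 (k2 + 1 + i) hk1l (by omega) (by omega)).1 hadj
      omega
  unfold Btw at c1 c2
  push Not at c1 c2
  have e1 := c1.1 hpz
  have e2 := c2.2 hpy
  exact hpyz (le_antisymm e1 e2)

end Pool.Agent.Helper64.HG
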